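import Pool.Agent.E8helper34.Bz.Main

/-!
# Benzels with nonpositive Conway-Lagarias invariant tile by left stones and bones

Definitions (`benzel`, `IsLeftStone`, `IsBone`, `IsTiling`, `I`) are in
`Pool.Agent.E8helper34.Bz.Basic`.

The tiling: with `d = a - b ≥ 0` and `m = (a + b) / 6 - d ^ 2 / 2` (the number of left stones), the
plane minus the triangle `{i, j, k ≤ m}` splits into three sectors of rows of bones, one for each
direction, which meet the benzel in rows whose lengths are multiples of three; the triangle is tiled
by `m` left stones and bones.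
-/

set_option autoImplicit false

namespace Pool.Agent.Results.MP_cb668b_co.BenzelTilingsH34

open Pool.Agent.E8helper34.Bz

/-- For all `a, b` with `2 ≤ a ≤ 2b`, `2 ≤ b ≤ 2a` and `I(a,b) ≤ 0` the benzel `B(a,b)` has a
tiling by left stones and bones. -/
theorem result (a b : ℤ) (ha : 2 ≤ a) (hab : a ≤ 2 * b) (hb : 2 ≤ b) (hba : b ≤ 2 * a)
    (hI : I a b ≤ 0) : ∃ T : Set (Set (ℤ × ℤ × ℤ)), IsTiling T (benzel a b) :=
  main ha hab hb hba hI

end Pool.Agent.Results.MP_cb668b_co.BenzelTilingsH34
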